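import Mathlib
import Pool.Agent.H.MP_17c4bf_an.Defs

set_option autoImplicit false

namespace Pool.Agent.H.MP_17c4bf_an

open Set Filter Topology

variable {Z : Type} [NormedAddCommGroup Z] [NormedSpace ℝ Z]

structure CL (g : Z → ℝ) (L : ℝ) : Prop where
  cvx : ConvexOn ℝ univ g
  lip : ∀ x y, g x - g y ≤ L * ‖x - y‖

noncomputable def sl (g : Z → ℝ) (z h : Z) (t : ℝ) : ℝ := (g (z + t • h) - g z) / t

noncomputable def d (g : Z → ℝ) (z h : Z) : ℝ := ⨅ t : Ioi (0 : ℝ), sl g z h t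

variable {g : Z → ℝ} {L : ℝ}

theorem CL.cont (H : CL g L) : Continuous g := by
  refine (LipschitzWith.of_le_add_mul' L (fun x y => ?_)).continuous
  have := H.lip x y
  rw [dist_eq_norm]; linarith

theorem CL.sl_le (H : CL g L) (z h : Z) {t : ℝ} (ht : 0 < t) : sl g z h t ≤ L * ‖h‖ := by
  have := H.lip (z + t • h) z
  rw [add_sub_cancel_left, norm_smul, Real.norm_of_nonneg ht.le] at this
  unfold sl
  rw [div_le_iff₀ ht]; linarith

theorem CL.le_sl (H : CL g L) (z h : Z) {t : ℝ} (ht : 0 < t) : -(L * ‖h‖) ≤ sl g z h t := by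
  have := H.lip z (z + t • h)
  rw [norm_sub_rev, add_sub_cancel_left, norm_smul, Real.norm_of_nonneg ht.le] at this
  unfold sl
  rw [le_div_iff₀ ht]; linarith

theorem CL.d_le (H : CL g L) (z h : Z) {t : ℝ} (ht : 0 < t) : d g z h ≤ sl g z h t :=
  ciInf_le (f := fun t : Ioi (0 : ℝ) => sl g z h t)
    ⟨-(L * ‖h‖), by rintro _ ⟨s, rfl⟩; exact H.le_sl z h s.2⟩ ⟨t, ht⟩

theorem le_d {z h : Z} {a : ℝ} (ha : ∀ t, 0 < t → a ≤ sl g z h t) : a ≤ d g z h :=
  le_ciInf fun t => ha t t.2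

theorem d_lt {z h : Z} {a : ℝ} (ha : d g z h < a) : ∃ t, 0 < t ∧ sl g z h t < a := by
  by_contra hc
  push Not at hc
  exact absurd (le_d hc) (not_le.2 ha)

theorem CL.d_le_L (H : CL g L) (z h : Z) : d g z h ≤ L * ‖h‖ :=
  (H.d_le z h one_pos).trans (H.sl_le z h one_pos)

theorem CL.L_le_d (H : CL g L) (z h : Z) : -(L * ‖h‖) ≤ d g z h :=
  le_d fun _ ht => H.le_sl z h ht

theorem CL.sl_mono (H : CL g L) (z h : Z) {s t : ℝ} (hs : 0 < s) (hst : s ≤ t) :
    sl g z h s ≤ sl g z h t := by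
  have ht : 0 < t := hs.trans_le hst
  have h1 : 0 ≤ s / t := by positivity
  have h2 : 0 ≤ 1 - s / t := by rw [sub_nonneg, div_le_one ht]; exact hst
  have := H.cvx.2 (mem_univ z) (mem_univ (z + t • h)) h2 h1 (by ring)
  have e : (1 - s / t) • z + (s / t) • (z + t • h) = z + s • h := by
    rw [smul_add, smul_smul, div_mul_cancel₀ _ ht.ne', sub_smul, one_smul]; abel
  rw [e, smul_eq_mul, smul_eq_mul] at this
  unfold sl
  rw [div_le_div_iff₀ hs ht]
  have e2 : (1 - s / t) * g z + s / t * g (z + t • h) = g z + (g (z + t • h) - g z) * s / t := by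
    ring
  rw [e2] at this
  have : (g (z + s • h) - g z) ≤ (g (z + t • h) - g z) * s / t := by linarith
  rwa [le_div_iff₀ ht] at this

theorem CL.d_add (H : CL g L) (z h k : Z) : d g z (h + k) ≤ d g z h + d g z k := by
  refine le_of_forall_pos_lt_add fun ε hε => ?_
  obtain ⟨s, hs, h1⟩ := d_lt (lt_add_of_pos_right (d g z h) (half_pos hε))
  obtain ⟨t, ht, h2⟩ := d_lt (lt_add_of_pos_right (d g z k) (half_pos hε))
  obtain ⟨r, hr, hrs, hrt⟩ : ∃ r, 0 < r ∧ r ≤ s ∧ r ≤ t :=
    ⟨min s t, lt_min hs ht, min_le_left _ _, min_le_right _ _⟩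
  have h3 := H.sl_mono z h hr hrs
  have h4 := H.sl_mono z k hr hrt
  have h5 := H.d_le z (h + k) (half_pos hr)
  have h6 : sl g z (h + k) (r / 2) ≤ sl g z h r + sl g z k r := by
    have := H.cvx.2 (mem_univ (z + r • h)) (mem_univ (z + r • k))
      (show (0 : ℝ) ≤ 1 / 2 by norm_num) (show (0 : ℝ) ≤ 1 / 2 by norm_num) (by norm_num)
    have e : (1 / 2 : ℝ) • (z + r • h) + (1 / 2 : ℝ) • (z + r • k) = z + (r / 2) • (h + k) := by
      module
    rw [e, smul_eq_mul, smul_eq_mul] at this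
    unfold sl
    rw [← add_div, div_le_div_iff₀ (half_pos hr) hr]
    nlinarith
  linarith

theorem sl_smul (z h : Z) {c t : ℝ} (hc : c ≠ 0) : sl g z (c • h) t = c * sl g z h (t * c) := by
  unfold sl
  rw [smul_smul]
  by_cases ht : t = 0
  · simp [ht]
  field_simp

theorem CL.d_smul (H : CL g L) (z h : Z) {c : ℝ} (hc : 0 < c) : d g z (c • h) = c * d g z h := by
  apply le_antisymm
  · rw [mul_comm, ← div_le_iff₀ hc]
    refine le_d fun t ht => ?_
    have := H.d_le z (c • h) (div_pos ht hc)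
    rw [sl_smul z h hc.ne', div_mul_cancel₀ _ hc.ne'] at this
    rw [div_le_iff₀ hc]; linarith
  · refine le_d fun t ht => ?_
    rw [sl_smul z h hc.ne']
    exact mul_le_mul_of_nonneg_left (H.d_le z h (mul_pos ht hc)) hc.le

theorem d_zero (z : Z) : d g z 0 = 0 := by
  simp [d, sl]

theorem CL.open_lt (H : CL g L) (h : Z) (a : ℝ) : IsOpen {z | d g z h < a} := by
  have : {z | d g z h < a} = ⋃ t : Ioi (0 : ℝ), {z | sl g z h t < a} := by
    ext z
    simp only [mem_iUnion, Set.mem_ofPred_eq]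
    exact ⟨fun hz => let ⟨t, ht, h1⟩ := d_lt hz; ⟨⟨t, ht⟩, h1⟩,
      fun ⟨t, ht⟩ => (H.d_le z h t.2).trans_lt ht⟩
  rw [this]
  refine isOpen_iUnion fun t => isOpen_lt ?_ continuous_const
  unfold sl
  have := H.cont
  fun_prop

theorem CL.lock (H : CL g L) {U : Set Z} (hU : IsOpen U) {z h : Z} (hz : z ∈ U) {a : ℝ}
    (ha : a < d g z h) : ∃ z' ∈ U, d g z' (-h) < -a := by
  have h1 : ∀ᶠ t in 𝓝 (0 : ℝ), z + t • h ∈ U := by
    have : Continuous fun t : ℝ => z + t • h := by fun_prop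
    exact this.continuousAt.eventually_mem (hU.mem_nhds (by simpa using hz))
  obtain ⟨t, ht, h2⟩ := ((h1.filter_mono nhdsWithin_le_nhds).and
    (self_mem_nhdsWithin (s := Ioi (0 : ℝ)))).exists
  refine ⟨z + t • h, ht, (H.d_le _ _ h2).trans_lt ?_⟩
  have := H.d_le z h h2
  unfold sl at this ⊢
  rw [smul_neg, add_neg_cancel_right, ← neg_sub, neg_div]
  linarith

noncomputable def q (g : Z → ℝ) (z h : Z) : ℝ := d g z h + d g z (-h)

theorem CL.q_nonneg (H : CL g L) (z h : Z) : 0 ≤ q g z h := by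
  have := H.d_add z h (-h)
  rwa [add_neg_cancel, d_zero] at this

theorem CL.q_open (H : CL g L) (h : Z) (ε : ℝ) : IsOpen {z | q g z h < ε} := by
  refine isOpen_iff_mem_nhds.2 fun z hz => ?_
  have hz' : q g z h < ε := hz
  have h1 := (H.open_lt h (d g z h + (ε - q g z h) / 2)).mem_nhds
    (x := z) (by simp only [Set.mem_ofPred_eq]; linarith)
  have h2 := (H.open_lt (-h) (d g z (-h) + (ε - q g z h) / 2)).mem_nhds
    (x := z) (by simp only [Set.mem_ofPred_eq]; linarith)
  filter_upwards [h1, h2] with y h3 h4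
  simp only [q] at *
  linarith

theorem CL.q_dense (H : CL g L) (h : Z) {ε : ℝ} (hε : 0 < ε) : Dense {z | q g z h < ε} := by
  refine dense_iff_inter_open.2 fun U hU hne => ?_
  have hb : BddAbove ((fun z => d g z h) '' U) := ⟨L * ‖h‖, by
    rintro _ ⟨z, -, rfl⟩; exact H.d_le_L z h⟩
  obtain ⟨_, ⟨z, hz, rfl⟩, h1⟩ := exists_lt_of_lt_csSup (hne.image fun z => d g z h)
    (sub_lt_self (sSup ((fun z => d g z h) '' U)) hε)
  obtain ⟨z', hz', h2⟩ := H.lock hU hz h1
  have h3 := le_csSup hb (mem_image_of_mem _ hz')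
  refine ⟨z', hz', ?_⟩
  simp only [q, Set.mem_ofPred_eq] at *
  linarith

theorem CL.q_add (H : CL g L) (z h k : Z) : q g z (h + k) ≤ q g z h + q g z k := by
  have h1 := H.d_add z h k
  have h2 := H.d_add z (-h) (-k)
  unfold q
  rw [neg_add]; linarith

theorem CL.q_smul (H : CL g L) (z h : Z) (c : ℝ) : q g z (c • h) = |c| * q g z h := by
  unfold q
  rcases lt_trichotomy c 0 with hc | rfl | hc
  · have e1 : c • h = (-c) • (-h) := by simp
    have e2 : -(c • h) = (-c) • h := by simp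
    rw [e2, e1, H.d_smul _ _ (neg_pos.2 hc), H.d_smul _ _ (neg_pos.2 hc), abs_of_neg hc]; ring
  · simp [d_zero]
  · rw [← smul_neg, H.d_smul _ _ hc, H.d_smul _ _ hc, abs_of_pos hc]; ring

theorem CL.q_span (H : CL g L) (z : Z) {T : Set Z}
    (hT : Dense (Submodule.span ℝ T : Set Z)) (h0 : ∀ h ∈ T, q g z h ≤ 0) (h : Z) :
    q g z h ≤ 0 := by
  have h1 : ∀ k ∈ Submodule.span ℝ T, q g z k ≤ 0 := by
    intro k hk
    induction hk using Submodule.span_induction with
    | mem x hx => exact h0 x hx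
    | zero => simp [q, d_zero]
    | add x y _ _ hx hy => exact (H.q_add z x y).trans (by linarith)
    | smul c x _ hx => rw [H.q_smul]; exact mul_nonpos_of_nonneg_of_nonpos (abs_nonneg c) hx
  have hc : Continuous fun k => q g z k := by
    refine (LipschitzWith.of_le_add_mul' (2 * L) (fun x y => ?_)).continuous
    have h2 := H.q_add z y (x - y)
    have h3 := H.d_le_L z (x - y)
    have h4 := H.d_le_L z (-(x - y))
    rw [add_sub_cancel] at h2
    rw [norm_neg] at h4
    rw [dist_eq_norm]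
    unfold q at *
    linarith
  exact closure_minimal (s := (Submodule.span ℝ T : Set Z)) h1
    (isClosed_le hc continuous_const) (hT h)

theorem CL.tendsto_right (H : CL g L) (z h : Z) :
    Tendsto (sl g z h) (𝓝[>] 0) (𝓝 (d g z h)) := by
  refine tendsto_order.2 ⟨fun a ha => ?_, fun a ha => ?_⟩
  · filter_upwards [self_mem_nhdsWithin] with t ht using ha.trans_le (H.d_le z h ht)
  · obtain ⟨s, hs, h1⟩ := d_lt ha
    filter_upwards [Ioc_mem_nhdsGT hs] with t ht using (H.sl_mono z h ht.1 ht.2).trans_lt h1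

theorem CL.gateaux (H : CL g L) (z : Z) (h0 : ∀ h, q g z h ≤ 0) : GateauxAt g z := by
  have hn : ∀ h, d g z (-h) = - d g z h := fun h => by
    have h1 := h0 h
    have h2 := H.q_nonneg z h
    unfold q at *
    linarith
  let φ : Z →ₗ[ℝ] ℝ :=
    { toFun := d g z
      map_add' := fun h k => by
        have h1 := H.d_add z h k
        have h2 := H.d_add z (-h) (-k)
        rw [← neg_add, hn, hn, hn] at h2
        linarith
      map_smul' := fun c h => by
        simp only [RingHom.id_apply, smul_eq_mul]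
        rcases lt_trichotomy c 0 with hc | rfl | hc
        · have e1 : c • h = (-c) • (-h) := by simp
          rw [e1, H.d_smul _ _ (neg_pos.2 hc), hn]; ring
        · simp [d_zero]
        · exact H.d_smul _ _ hc }
  refine ⟨φ.mkContinuous L fun h => ?_, fun v => ?_⟩
  · exact abs_le.2 ⟨H.L_le_d z h, H.d_le_L z h⟩
  · rw [← nhdsLT_sup_nhdsGT, tendsto_sup]
    refine ⟨?_, H.tendsto_right z v⟩
    have h1 := (H.tendsto_right z (-v)).neg
    rw [hn, neg_neg] at h1
    have h2 : Tendsto (fun t : ℝ => -t) (𝓝[<] 0) (𝓝[>] 0) := by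
      simpa using tendsto_neg_nhdsLT (a := (0 : ℝ))
    refine (h1.comp h2).congr fun t => ?_
    simp only [Function.comp, sl, smul_neg, neg_smul, neg_neg, div_neg]

theorem extend {D : Set Z} (hD : IsOpen D) {f : Z → ℝ} (hf : ConvexOn ℝ D f)
    (hc : ContinuousOn f D) {w : Z} (hw : w ∈ D) :
    ∃ (r : ℝ) (g : Z → ℝ) (L : ℝ), 0 < r ∧ Metric.ball w r ⊆ D ∧ CL g L ∧
      EqOn f g (Metric.ball w r) := by
  obtain ⟨K, t, ht, hK⟩ := (hf.locallyLipschitzOn_iff_continuousOn hD).2 hc hw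
  rw [hD.nhdsWithin_eq hw] at ht
  obtain ⟨r, hr, hb⟩ := Metric.mem_nhds_iff.1 (inter_mem ht (hD.mem_nhds hw))
  have hl : ∀ x ∈ Metric.ball w r, ∀ y ∈ Metric.ball w r, f x - f y ≤ K * ‖x - y‖ := by
    intro x hx y hy
    have := hK.dist_le_mul x (hb hx).1 y (hb hy).1
    rw [Real.dist_eq, dist_eq_norm] at this
    exact (le_abs_self _).trans this
  have hK0 : (0 : ℝ) ≤ K := K.2
  haveI : Nonempty (Metric.ball w r) := ⟨⟨w, Metric.mem_ball_self hr⟩⟩
  let g : Z → ℝ := fun x => ⨅ u : Metric.ball w r, f u + K * ‖x - u‖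
  have hbd : ∀ x : Z, BddBelow (range fun u : Metric.ball w r => f u + K * ‖x - u‖) := by
    intro x
    refine ⟨f w - K * ‖x - w‖, ?_⟩
    rintro _ ⟨u, rfl⟩
    have h1 := hl w (Metric.mem_ball_self hr) u u.2
    have h2 : ‖w - u‖ ≤ ‖x - w‖ + ‖x - u‖ := by
      have := norm_sub_le (x - u) (x - w)
      rw [show x - u - (x - w) = w - u by abel] at this
      linarith
    have := mul_le_mul_of_nonneg_left h2 hK0
    simp only
    linarith
  have hle : ∀ (x : Z) (u : Metric.ball w r), g x ≤ f u + K * ‖x - u‖ := fun x u => ciInf_le (hbd x) u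
  have hlt : ∀ (x : Z) (ε : ℝ), 0 < ε → ∃ u : Metric.ball w r, f u + K * ‖x - u‖ < g x + ε := fun x ε hε =>
    exists_lt_of_ciInf_lt (lt_add_of_pos_right _ hε)
  refine ⟨r, g, K, hr, fun x hx => (hb hx).2, ⟨⟨convex_univ, ?_⟩, ?_⟩, ?_⟩
  · intro x _ y _ a b ha hb' hab
    refine le_of_forall_pos_le_add fun ε hε => ?_
    obtain ⟨u, hu⟩ := hlt x ε hε
    obtain ⟨v, hv⟩ := hlt y ε hε
    have h1 := hle (a • x + b • y) ⟨a • u + b • v, convex_ball w r u.2 v.2 ha hb' hab⟩
    have h2 := hf.2 (hb u.2).2 (hb v.2).2 ha hb' hab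
    have h3 : ‖a • x + b • y - (a • (u : Z) + b • (v : Z))‖ ≤ a * ‖x - u‖ + b * ‖y - v‖ := by
      rw [show a • x + b • y - (a • (u : Z) + b • (v : Z)) = a • (x - u) + b • (y - v) by module]
      refine (norm_add_le _ _).trans ?_
      rw [norm_smul, norm_smul, Real.norm_of_nonneg ha, Real.norm_of_nonneg hb']
    have h4 := mul_le_mul_of_nonneg_left h3 hK0
    have h5 := mul_le_mul_of_nonneg_left hu.le ha
    have h6 := mul_le_mul_of_nonneg_left hv.le hb'
    simp only [smul_eq_mul] at *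
    have : ε = a * ε + b * ε := by rw [← add_mul, hab, one_mul]
    nlinarith
  · intro x y
    refine le_of_forall_pos_le_add fun ε hε => ?_
    obtain ⟨u, hu⟩ := hlt y ε hε
    have h1 := hle x u
    have h2 : ‖x - u‖ ≤ ‖x - y‖ + ‖y - u‖ := norm_sub_le_norm_sub_add_norm_sub _ _ _
    have := mul_le_mul_of_nonneg_left h2 hK0
    linarith
  · intro x hx
    apply le_antisymm
    · refine le_ciInf fun u => ?_
      have := hl x hx u u.2
      linarith
    · simpa using hle x ⟨x, hx⟩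

theorem GateauxAt.congr {f g : Z → ℝ} {x : Z} (h : GateauxAt g x) (he : f =ᶠ[𝓝 x] g) :
    GateauxAt f x := by
  obtain ⟨φ, hφ⟩ := h
  refine ⟨φ, fun v => (hφ v).congr' ?_⟩
  have : Continuous fun t : ℝ => x + t • v := by fun_prop
  have h1 : Tendsto (fun t : ℝ => x + t • v) (𝓝 0) (𝓝 x) := by
    simpa using this.tendsto 0
  filter_upwards [(h1.mono_left nhdsWithin_le_nhds).eventually he] with t ht
  rw [ht, he.eq_of_nhds]

end Pool.Agent.H.MP_17c4bf_an
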