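import Mathlib
import Pool.Agent.H.MP_aca27d_an.A

set_option autoImplicit false

namespace Pool.Agent.H.MP_17c4bf_an

open Set Filter Topology Cardinal PiNat

abbrev Om := ℕ → Bool

def rs (n : ℕ) (a : Om) : Fin n → Bool := fun i => a i

def ex {n : ℕ} (s : Fin n → Bool) : Om := fun i => if h : i < n then s ⟨i, h⟩ else false

theorem ex_rs (n : ℕ) (a : Om) : ex (rs n a) ∈ cylinder a n := fun i hi => by
  simp [ex, rs, hi]

theorem rs_eq {n : ℕ} {a b : Om} : rs n a = rs n b ↔ a ∈ cylinder b n :=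
  ⟨fun h i hi => congrFun h ⟨i, hi⟩, fun h => funext fun i => h i i.2⟩

theorem rs_cont (n : ℕ) : Continuous (rs n) := continuous_pi fun _ => continuous_apply _

theorem cyl_clopen (a : Om) (n : ℕ) : IsClopen (cylinder a n) := by
  have : cylinder a n = rs n ⁻¹' {rs n a} := by ext b; simp [rs_eq]
  rw [this]
  exact (isClopen_discrete _).preimage (rs_cont n)

theorem cyl_basis (a : Om) {U : Set Om} (hU : U ∈ 𝓝 a) : ∃ n, cylinder a n ⊆ U := by
  obtain ⟨_, ⟨b, n, rfl⟩, h1, h2⟩ :=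
    (isTopologicalBasis_cylinders (fun _ : ℕ => Bool)).mem_nhds_iff.1 hU
  exact ⟨n, by rwa [mem_cylinder_iff_eq.1 h1]⟩

theorem ev_not_cyl {a b : Om} (h : a ≠ b) : ∀ᶠ n in atTop, a ∉ cylinder b n := by
  obtain ⟨i, hi⟩ := Function.ne_iff.1 h
  filter_upwards [eventually_gt_atTop i] with n hn h' using hi (h' i hn)

theorem cyl_disj {a b : Om} {n : ℕ} (h : a ∉ cylinder b n) :
    Disjoint (cylinder a n) (cylinder b n) :=
  Set.disjoint_left.2 fun _ h1 h2 => h fun i hi => (h1 i hi).symm.trans (h2 i hi)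

theorem pair_dense {Z ι : Type} [MetricSpace Z] [Fintype ι] {W : Set (Z × Z)} (hd : Dense W)
    {s t : ι} (hst : s ≠ t) : Dense {v : ι → Z | (v s, v t) ∈ W} := by
  classical
  refine Metric.dense_iff.2 fun v r hr => ?_
  obtain ⟨p, hp, hW⟩ := Metric.dense_iff.1 hd (v s, v t) r hr
  rw [← ball_prod_same] at hp
  refine ⟨Function.update (Function.update v s p.1) t p.2, ?_, ?_⟩
  · rw [ball_pi _ hr]
    intro i _
    by_cases h1 : i = t
    · subst h1; simpa using hp.2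
    by_cases h2 : i = s
    · subst h2; simpa [Function.update_of_ne h1] using hp.1
    · simpa [Function.update_of_ne h1, Function.update_of_ne h2] using hr
  · simpa [Function.update_of_ne hst] using hW

theorem mycielski {Z ι : Type} [Countable ι] [MetricSpace Z] [CompleteSpace Z] (W : ι → Set (Z × Z))
    (ho : ∀ k, IsOpen (W k)) (hd : ∀ k, Dense (W k)) {U : Set Z} (hU : IsOpen U)
    (hne : U.Nonempty) :
    ∃ x : Om → Z, Continuous x ∧ (∀ σ, x σ ∈ U) ∧ ∀ σ τ, σ ≠ τ → ∀ k, (x σ, x τ) ∈ W k := by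
  classical
  let T : ℕ × ι → Set C(Om, Z) := fun p =>
    {φ | ∀ w : Om × Om, w ∈ {w : Om × Om | w.1 ∉ cylinder w.2 p.1} → (φ w.1, φ w.2) ∈ W p.2}
  have hTo : ∀ p, IsOpen (T p) := by
    intro p
    have hK : IsCompact {w : Om × Om | w.1 ∉ cylinder w.2 p.1} := by
      refine IsClosed.isCompact ?_
      have : {w : Om × Om | w.1 ∉ cylinder w.2 p.1} =
          (fun w : Om × Om => (rs p.1 w.1, rs p.1 w.2)) ⁻¹' {u | u.1 ≠ u.2} := by
        ext w; simp [rs_eq]
      rw [this]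
      exact (isClosed_discrete _).preimage
        (((rs_cont _).comp continuous_fst).prodMk ((rs_cont _).comp continuous_snd))
    refine isOpen_iff_mem_nhds.2 fun φ hφ => ?_
    refine hK.eventually_forall_of_forall_eventually
      (P := fun (ψ : C(Om, Z)) (w : Om × Om) => (ψ w.1, ψ w.2) ∈ W p.2) fun w hw => ?_
    have hc : Continuous fun z : C(Om, Z) × (Om × Om) => (z.1 z.2.1, z.1 z.2.2) := by fun_prop
    exact hc.continuousAt.eventually_mem ((ho _).mem_nhds (hφ w hw))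
  have hTd : ∀ p, Dense (T p) := by
    intro p
    refine Metric.dense_iff.2 fun φ r hr => ?_
    obtain ⟨N, hN⟩ : ∃ N, ∀ a b, a ∈ cylinder b N → dist (φ a) (φ b) < r / 2 := by
      have h1 : ∀ b, ∃ n, ∀ a ∈ cylinder b n, dist (φ a) (φ b) < r / 4 := fun b =>
        cyl_basis b (φ.continuous.continuousAt.eventually_mem
          (Metric.ball_mem_nhds (φ b) (by positivity : 0 < r / 4)))
      choose n hn using h1
      obtain ⟨F, hF⟩ := isCompact_univ.elim_finite_subcover (fun b => cylinder b (n b))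
        (fun b => (cyl_clopen b _).isOpen) (fun b _ => mem_iUnion.2 ⟨b, self_mem_cylinder b _⟩)
      refine ⟨F.sup n, fun a b hab => ?_⟩
      obtain ⟨c, hc, hb⟩ := mem_iUnion₂.1 (hF (mem_univ b))
      have ha : a ∈ cylinder c (n c) := fun i hi =>
        (hab i (hi.trans_le (Finset.le_sup hc))).trans (hb i hi)
      have := dist_triangle_right (φ a) (φ b) (φ c)
      linarith [hn c a ha, hn c b hb]
    let M := max N p.1
    have h2 : Dense (⋂ u : {u : (Fin M → Bool) × (Fin M → Bool) // u.1 ≠ u.2},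
        {v : (Fin M → Bool) → Z | (v u.1.1, v u.1.2) ∈ W p.2}) :=
      dense_iInter_of_isOpen (fun u => (ho _).preimage (by fun_prop))
        fun u => pair_dense (hd _) u.2
    obtain ⟨v, hv, hW⟩ := Metric.dense_iff.1 h2 (fun s => φ (ex s)) (r / 2) (half_pos hr)
    rw [ball_pi _ (half_pos hr)] at hv
    refine ⟨⟨fun a => v (rs M a), continuous_of_discreteTopology.comp (rs_cont M)⟩, ?_, ?_⟩
    · rw [Metric.mem_ball, ContinuousMap.dist_lt_iff hr]
      intro a
      have h3 : dist (v (rs M a)) (φ (ex (rs M a))) < r / 2 := hv _ (mem_univ _)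
      have h4 := hN _ _ (cylinder_anti a (le_max_left N p.1) (ex_rs M a))
      have := dist_triangle (v (rs M a)) (φ (ex (rs M a))) (φ a)
      simp only [ContinuousMap.coe_mk]
      linarith
    · intro w hw
      exact mem_iInter.1 hW ⟨(rs M w.1, rs M w.2), fun h =>
        hw (cylinder_anti _ (le_max_right N p.1) (rs_eq.1 h))⟩
  obtain ⟨z, hz⟩ := hne
  obtain ⟨r, hr, hb⟩ := Metric.isOpen_iff.1 hU z hz
  obtain ⟨φ, hφ, hT⟩ := Metric.dense_iff.1 (dense_iInter_of_isOpen hTo hTd)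
    (ContinuousMap.const Om z) r hr
  rw [Metric.mem_ball, ContinuousMap.dist_lt_iff hr] at hφ
  refine ⟨φ, φ.continuous, fun σ => hb (hφ σ), fun σ τ h k => ?_⟩
  obtain ⟨n, hn⟩ := (ev_not_cyl h).exists
  exact mem_iInter.1 hT (n, k) (σ, τ) hn

theorem card_om : #Om = continuum := by simp [Om]

theorem miss (R : Om → Set Om) (hR : Pairwise fun σ τ => Disjoint (R σ) (R τ)) {T : Set Om}
    (hT : #T < continuum) : ∃ σ, Disjoint (R σ) T := by
  by_contra h
  push Not at h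
  simp only [Set.not_disjoint_iff] at h
  choose a ha hb using h
  have : Function.Injective fun σ => (⟨a σ, hb σ⟩ : T) := fun σ τ e => by
    by_contra hc
    have e' : a σ = a τ := congrArg Subtype.val e
    exact Set.disjoint_left.1 (hR hc) (ha σ) (e' ▸ ha τ)
  exact absurd (card_om ▸ mk_le_of_injective this) (not_le.2 hT)

def sec (R : Set (Om × Om)) (σ : Om) : Set Om := {a | (σ, a) ∈ R}

def Qs : Set Om := range fun s : Σ n, Fin n → Bool => ex s.2

theorem exists_A : ∃ A : Set Om, Disjoint A Qs ∧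
    (∀ R : Set (Om × Om), MeasurableSet R → (∀ σ, (sec R σ).Countable) →
      (Pairwise fun σ τ => Disjoint (sec R σ) (sec R τ)) → ∃ σ, Disjoint (sec R σ) A) ∧
    (∀ R : Set (Om × Om), MeasurableSet R → (∀ σ, (sec R σ).Nonempty) →
      (Pairwise fun σ τ => Disjoint (sec R σ) (sec R τ)) → ∃ σ, (sec R σ ∩ A).Nonempty) := by
  classical
  let C := {R : Set (Om × Om) // MeasurableSet R}
  have hC : #C ≤ continuum := by
    obtain ⟨b, hb, he⟩ := (inferInstance : MeasurableSpace.CountablyGenerated (Om × Om)).1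
    have := MeasurableSpace.cardinal_measurableSet_le_continuum (s := b)
      (hb.le_aleph0.trans aleph0_le_continuum)
    rw [← he] at this
    exact this
  let I := (continuum.{0}).ord.ToType
  have hI : #C ≤ #I := by rw [mk_ord_toType]; exact hC
  obtain ⟨ι⟩ := (Cardinal.le_def _ _).1 hI
  haveI : Nonempty C := ⟨⟨∅, MeasurableSet.empty⟩⟩
  let e : I → C := Function.invFun ι
  have he : ∀ z, e (ι z) = z := Function.leftInverse_invFun ι.injective
  let P : (t : I) → (I → Om × Set Om) → Om × Set Om → Prop := fun t f a =>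
    a.2.Countable ∧ a.1 ∉ Qs ∧ a.1 ∉ a.2 ∧ (∀ u, u < t → a.1 ∉ (f u).2 ∧ (f u).1 ∉ a.2) ∧
    ((∀ σ, (sec (e t).1 σ).Countable) →
      (Pairwise fun σ τ => Disjoint (sec (e t).1 σ) (sec (e t).1 τ)) → ∃ σ, sec (e t).1 σ = a.2) ∧
    ((∀ σ, (sec (e t).1 σ).Nonempty) →
      (Pairwise fun σ τ => Disjoint (sec (e t).1 σ) (sec (e t).1 τ)) → ∃ σ, a.1 ∈ sec (e t).1 σ)
  have hloc : ∀ t f g a, (∀ u, u < t → f u = g u) → P t f a → P t g a := by
    rintro t f g a h ⟨h1, h2, h3, h4, h5, h6⟩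
    exact ⟨h1, h2, h3, fun u hu => h u hu ▸ h4 u hu, h5, h6⟩
  have hstep : ∀ t f, (∀ u, u < t → P u f (f u)) → ∃ a, P t f a := by
    intro t f ih
    have h1 : #((fun u => (f u).1) '' Iio t) < continuum :=
      mk_image_le.trans_lt (mk_Iio_toType_ord_lt t)
    obtain ⟨B, hB, hB1, hB2⟩ : ∃ B : Set Om, B.Countable ∧
        Disjoint B ((fun u => (f u).1) '' Iio t) ∧ ((∀ σ, (sec (e t).1 σ).Countable) →
        (Pairwise fun σ τ => Disjoint (sec (e t).1 σ) (sec (e t).1 τ)) →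
        ∃ σ, sec (e t).1 σ = B) := by
      by_cases hv : (∀ σ, (sec (e t).1 σ).Countable) ∧
        (Pairwise fun σ τ => Disjoint (sec (e t).1 σ) (sec (e t).1 τ))
      · obtain ⟨σ, hσ⟩ := miss _ hv.2 h1
        exact ⟨_, hv.1 σ, hσ, fun _ _ => ⟨σ, rfl⟩⟩
      · exact ⟨∅, countable_empty, by simp, fun a b => absurd ⟨a, b⟩ hv⟩
    have h2 : #(↥((Qs ∪ B) ∪ ⋃ u : Iio t, (f u).2)) < continuum := by
      refine (mk_union_le _ _).trans_lt (add_lt_of_lt aleph0_le_continuum ?_ ?_)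
      · exact ((countable_range _).union hB).le_aleph0.trans_lt aleph0_lt_continuum
      · refine (mk_iUnion_le _).trans_lt (mul_lt_of_lt aleph0_le_continuum
          (mk_Iio_toType_ord_lt t) (lt_of_le_of_lt ?_ aleph0_lt_continuum))
        exact ciSup_le' fun u => (ih u u.2).1.le_aleph0
    obtain ⟨p, hp, hp2⟩ : ∃ p, p ∉ (Qs ∪ B) ∪ ⋃ u : Iio t, (f u).2 ∧
        ((∀ σ, (sec (e t).1 σ).Nonempty) →
        (Pairwise fun σ τ => Disjoint (sec (e t).1 σ) (sec (e t).1 τ)) →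
        ∃ σ, p ∈ sec (e t).1 σ) := by
      by_cases hv : (∀ σ, (sec (e t).1 σ).Nonempty) ∧
        (Pairwise fun σ τ => Disjoint (sec (e t).1 σ) (sec (e t).1 τ))
      · obtain ⟨σ, hσ⟩ := miss _ hv.2 h2
        obtain ⟨p, hp⟩ := hv.1 σ
        exact ⟨p, Set.disjoint_left.1 hσ hp, fun _ _ => ⟨σ, hp⟩⟩
      · obtain ⟨σ, hσ⟩ := miss (fun σ => {σ}) (fun σ τ h => by simpa using h) h2
        exact ⟨σ, Set.disjoint_left.1 hσ rfl, fun a b => absurd ⟨a, b⟩ hv⟩
    simp only [mem_union, mem_iUnion, not_or, not_exists] at hp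
    exact ⟨(p, B), hB, hp.1.1, hp.1.2, fun u hu => ⟨hp.2 ⟨u, hu⟩,
      Set.disjoint_right.1 hB1 ⟨u, hu, rfl⟩⟩, hB2, hp2⟩
  obtain ⟨f, hf⟩ := Pool.Agent.H.MP_aca27d_an.wf_choice P hloc hstep
  refine ⟨range fun t => (f t).1, ?_, fun R hR h1 h2 => ?_, fun R hR h1 h2 => ?_⟩
  · rw [Set.disjoint_left]
    rintro _ ⟨t, rfl⟩
    exact (hf t).2.1
  · obtain ⟨-, -, h3, h4, h5, -⟩ := hf (ι ⟨R, hR⟩)
    rw [he] at h5
    obtain ⟨σ, hσ⟩ := h5 h1 h2
    refine ⟨σ, ?_⟩
    rw [show sec R σ = _ from hσ, Set.disjoint_right]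
    rintro _ ⟨u, rfl⟩
    rcases lt_trichotomy u (ι ⟨R, hR⟩) with h | rfl | h
    · exact (h4 u h).2
    · exact h3
    · exact ((hf u).2.2.2.1 _ h).1
  · obtain ⟨-, -, -, -, -, h5⟩ := hf (ι ⟨R, hR⟩)
    rw [he] at h5
    obtain ⟨σ, hσ⟩ := h5 h1 h2
    exact ⟨σ, _, hσ, _, rfl⟩

theorem meager_trick {W : Type} [MetricSpace W] (C : ℕ → Set W) (hc : ∀ k, IsClosed (C k))
    (hm : Monotone C) (hu : ∀ w, ∃ k, w ∈ C k) (hi : ∀ k, Dense (C k)ᶜ) {D S : Set W}
    (hD : IsOpen D) (hS : D ⊆ closure S) : ∃ G, G ⊆ S ∧ IsGδ G ∧ D ⊆ closure G := by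
  have h1 : ∀ k : ℕ, ∃ G : Set W, Maximal (fun G => G ⊆ S \ C k ∧
      G.Pairwise fun x y => 1 / ((k : ℝ) + 1) ≤ dist x y) G := by
    intro k
    refine zorn_subset {G | G ⊆ S \ C k ∧ G.Pairwise fun x y => 1 / ((k : ℝ) + 1) ≤ dist x y}
      fun c hc hch => ⟨⋃₀ c, ⟨sUnion_subset fun t ht => (hc ht).1, ?_⟩,
        fun s hs => subset_sUnion_of_mem hs⟩
    exact (pairwise_sUnion hch.directedOn).2 fun t ht => (hc ht).2
  choose G hG using h1
  refine ⟨⋃ k, G k, iUnion_subset fun k => (hG k).prop.1.trans sdiff_subset, ?_, ?_⟩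
  · have : ⋃ k, G k = ⋂ n, ((C n)ᶜ ∪ ⋃ k ∈ Finset.range n, G k) := by
      ext w
      simp only [mem_iUnion, mem_iInter, mem_union, mem_compl_iff, Finset.mem_range]
      constructor
      · rintro ⟨k, hk⟩ n
        by_cases h : k < n
        · exact Or.inr ⟨k, h, hk⟩
        · exact Or.inl fun h' => ((hG k).prop.1 hk).2 (hm (not_lt.1 h) h')
      · intro h
        obtain ⟨n, hn⟩ := hu w
        obtain h' | ⟨k, -, hk⟩ := h n
        · exact absurd hn h'
        · exact ⟨k, hk⟩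
    rw [this]
    refine IsGδ.iInter fun n => (hc n).isOpen_compl.isGδ.union (IsClosed.isGδ ?_)
    exact isClosed_biUnion_finset fun k _ =>
      Metric.isClosed_of_pairwise_le_dist Nat.one_div_pos_of_nat (hG k).prop.2
  · intro w hw
    refine Metric.mem_closure_iff.2 fun ε hε => ?_
    obtain ⟨k, hk⟩ := exists_nat_one_div_lt (half_pos hε)
    obtain ⟨y, ⟨hy1, hy2⟩, hy3⟩ := (hi k).inter_open_nonempty (D ∩ Metric.ball w (ε / 2))
      (hD.inter Metric.isOpen_ball) ⟨w, hw, Metric.mem_ball_self (half_pos hε)⟩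
    obtain ⟨s, ⟨hs1, hs2⟩, hs3⟩ := mem_closure_iff.1 (hS hy1) (Metric.ball w (ε / 2) ∩ (C k)ᶜ)
      (Metric.isOpen_ball.inter (hc k).isOpen_compl) ⟨hy2, hy3⟩
    obtain ⟨z, hz, hd⟩ : ∃ z ∈ G k, dist s z < 1 / ((k : ℝ) + 1) := by
      by_contra hcon
      push Not at hcon
      have h2 : insert s (G k) ⊆ G k := (hG k).le_of_ge (y := insert s (G k))
        ⟨insert_subset ⟨hs3, hs2⟩ (hG k).prop.1, (hG k).prop.2.insert fun b hb _ =>
          ⟨hcon b hb, by rw [dist_comm]; exact hcon b hb⟩⟩ (subset_insert _ _)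
      have := hcon s (h2 (mem_insert _ _))
      rw [dist_self] at this
      exact absurd this (not_le.2 Nat.one_div_pos_of_nat)
    refine ⟨z, mem_iUnion.2 ⟨k, hz⟩, ?_⟩
    have := dist_triangle w s z
    rw [Metric.mem_ball, dist_comm] at hs1
    linarith

end Pool.Agent.H.MP_17c4bf_an
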