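import Mathlib
import Pool.Agent.H.MP_17c4bf_an.A
import Pool.Agent.H.MP_17c4bf_an.B

set_option autoImplicit false

namespace Pool.Agent.H.MP_17c4bf_an

open Set Filter Topology PiNat

variable {Z : Type} [NormedAddCommGroup Z] [NormedSpace ℝ Z]

structure HS (H : Set Om → Set Z) : Prop where
  neg : ∀ J h, h ∈ H J → -h ∈ H J
  norm : ∀ J h, h ∈ H J → ‖h‖ ≤ 1
  add : ∀ J J' h k, Disjoint J J' → h ∈ H J → k ∈ H J' → h + k ∈ H (J ∪ J')
  zero : (0 : Z) ∈ H ∅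

def Hv (H : Set Om → Set Z) (g : Z → ℝ) (η : ℝ) (J : Set Om) : Set Z :=
  {z | ∃ h ∈ H J, η < d g z h}

def Gam (H : Set Om → Set Z) (g : Z → ℝ) (η : ℝ) : Set (Z × Om) :=
  {p | ∀ n, p.1 ∈ closure (Hv H g η (cylinder p.2 n))}

def St (H : Set Om → Set Z) (g : Z → ℝ) (η : ℝ) (x : Z) : Set Om :=
  {a | x ∈ interior {y | (y, a) ∈ Gam H g η}}

def Oc (H : Set Om → Set Z) (g : Z → ℝ) (η : ℝ) : Set Z :=
  {x | ∀ᶠ y in 𝓝 x, St H g η y = St H g η x}

variable {H : Set Om → Set Z} {g : Z → ℝ} {L η : ℝ}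

theorem lockN (hH : HS H) (hg : CL g L) {ι : Type} (J : ι → Set Om) (T : Finset ι)
    (hJ : (T : Set ι).Pairwise fun i j => Disjoint (J i) (J j)) {V : Set Z} (hV : IsOpen V)
    (hne : V.Nonempty) (hc : ∀ i ∈ T, V ⊆ closure (Hv H g η (J i))) :
    ∃ V' ⊆ V, IsOpen V' ∧ V'.Nonempty ∧ ∃ h ∈ H (⋃ i ∈ T, J i),
      ∀ z ∈ V', d g z h ≤ -(T.card * η) := by
  classical
  induction T using Finset.induction_on with
  | empty => exact ⟨V, subset_rfl, hV, hne, 0, by simpa using hH.zero, by simp [d_zero]⟩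
  | insert i T hi ih =>
    obtain ⟨V', h1, h2, ⟨y, h3⟩, h, h4, h5⟩ := ih (hJ.mono (by simp))
      fun j hj => hc j (Finset.mem_insert_of_mem hj)
    obtain ⟨z, hz, k, hk, hd⟩ := mem_closure_iff.1 (hc i (Finset.mem_insert_self _ _) (h1 h3)) V' h2 h3
    obtain ⟨z', hz', hd'⟩ := hg.lock h2 hz hd
    refine ⟨V' ∩ {z | d g z (-k) < -η}, inter_subset_left.trans h1, h2.inter (hg.open_lt _ _),
      ⟨z', hz', hd'⟩, -k + h, ?_, fun w hw => ?_⟩
    · rw [Finset.set_biUnion_insert]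
      refine hH.add _ _ _ _ ?_ (hH.neg _ _ hk) h4
      simp only [disjoint_iUnion_right]
      intro j hj
      exact hJ (by simp) (by simp [hj]) (fun e => hi (e ▸ hj))
    · have h6 := hg.d_add w (-k) h
      have h7 := h5 w hw.1
      have h8 : d g w (-k) < -η := hw.2
      rw [Finset.card_insert_of_notMem hi]
      push_cast
      linarith

theorem cardT (hH : HS H) (hg : CL g L) {x : Z} (T : Finset Om)
    (hT : ∀ a ∈ T, ∀ n, x ∈ interior (closure (Hv H g η (cylinder a n)))) :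
    T.card * η ≤ |L| := by
  have h1 : ∀ᶠ n in atTop, ∀ a ∈ T, ∀ b ∈ T, a ≠ b → a ∉ cylinder b n := by
    simp only [eventually_all_finset]
    intro a _ b _
    by_cases h : a = b
    · simp [h]
    · filter_upwards [ev_not_cyl h] with n hn _ using hn
  obtain ⟨n, hn⟩ := h1.exists
  obtain ⟨V', -, -, ⟨z, hz⟩, h, h4, h5⟩ := lockN (η := η) hH hg (fun a => cylinder a n) T
    (fun a ha b hb hab => cyl_disj (hn a ha b hb hab))
    (V := ⋂ a ∈ T, interior (closure (Hv H g η (cylinder a n))))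
    (isOpen_biInter_finset fun _ _ => isOpen_interior) ⟨x, mem_iInter₂.2 fun a ha => hT a ha n⟩
    fun a ha => (biInter_subset_of_mem (s := (T : Set Om)) ha).trans interior_subset
  have h6 := hg.L_le_d z h
  have h7 := h5 z hz
  have h8 : L * ‖h‖ ≤ |L| :=
    (mul_le_mul_of_nonneg_right (le_abs_self L) (norm_nonneg h)).trans
      (mul_le_of_le_one_right (abs_nonneg L) (hH.norm _ _ h4))
  linarith

theorem finP (hH : HS H) (hg : CL g L) (hη : 0 < η) {x : Z} {P : Set Om}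
    (hP : ∀ a ∈ P, ∀ n, x ∈ interior (closure (Hv H g η (cylinder a n)))) :
    P.Finite ∧ P.ncard * η ≤ |L| := by
  have hf : P.Finite := by
    by_contra h
    obtain ⟨N, hN⟩ := exists_nat_gt (|L| / η)
    obtain ⟨T, hT, hc⟩ := Set.Infinite.exists_subset_card_eq h N
    have := cardT hH hg T fun a ha => hP a (hT ha)
    rw [hc] at this
    rw [div_lt_iff₀ hη] at hN
    linarith
  refine ⟨hf, ?_⟩
  rw [ncard_eq_toFinset_card P hf]
  exact cardT hH hg _ fun a ha => hP a (by simpa using ha)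

theorem gam_closed : IsClosed (Gam H g η) := by
  refine isOpen_compl_iff.1 (isOpen_iff_mem_nhds.2 fun p hp => ?_)
  obtain ⟨n, hn⟩ := not_forall.1 hp
  have h1 : (closure (Hv H g η (cylinder p.2 n)))ᶜ ×ˢ cylinder p.2 n ∈ 𝓝 p :=
    (isClosed_closure.isOpen_compl.prod (cyl_clopen _ _).isOpen).mem_nhds
      ⟨hn, self_mem_cylinder _ _⟩
  filter_upwards [h1] with w hw h2
  have := h2 n
  rw [mem_cylinder_iff_eq.1 hw.2] at this
  exact hw.1 this

theorem gam_mono {η' : ℝ} (h : η' ≤ η) : Gam H g η ⊆ Gam H g η' := fun _ hp n =>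
  closure_mono (s := Hv H g η _) (t := Hv H g η' _)
    (fun _ ⟨k, hk, h1⟩ => ⟨k, hk, h.trans_lt h1⟩) (hp n)

theorem st_fin (hH : HS H) (hg : CL g L) (hη : 0 < η) (x : Z) :
    (St H g η x).Finite ∧ (St H g η x).ncard * η ≤ |L| :=
  finP (x := x) hH hg hη fun a ha n =>
    interior_mono (s := {y | (y, a) ∈ Gam H g η}) (fun _ hy => hy n) ha

theorem oc_open : IsOpen (Oc H g η) := by
  refine isOpen_iff_mem_nhds.2 fun x hx => ?_
  have hx' : ∀ᶠ y in 𝓝 x, St H g η y = St H g η x := hx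
  filter_upwards [hx'.eventually_nhds, hx'] with y h1 h2
  filter_upwards [h1] with z h3 using h3.trans h2.symm

theorem oc_dense (hH : HS H) (hg : CL g L) (hη : 0 < η) : Dense (Oc H g η) := by
  refine dense_iff_inter_open.2 fun U hU hne => ?_
  have hb : BddAbove ((fun x => (St H g η x).ncard) '' U) := by
    obtain ⟨N, hN⟩ := exists_nat_gt (|L| / η)
    refine ⟨N, ?_⟩
    rintro _ ⟨x, -, rfl⟩
    have := (st_fin hH hg hη x).2
    rw [div_lt_iff₀ hη] at hN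
    exact_mod_cast (lt_of_mul_lt_mul_right (this.trans_lt hN) hη.le).le
  obtain ⟨x, hx, hm⟩ := Nat.sSup_mem (hne.image fun x => (St H g η x).ncard) hb
  refine ⟨x, hx, ?_⟩
  have h1 : ∀ᶠ y in 𝓝 x, ∀ a ∈ St H g η x, a ∈ St H g η y :=
    (st_fin hH hg hη x).1.eventually_all.2 fun a ha => isOpen_interior.mem_nhds ha
  filter_upwards [h1, hU.mem_nhds hx] with y h2 h3
  refine (eq_of_subset_of_ncard_le h2 ?_ (st_fin hH hg hη y).1).symm
  exact (le_csSup hb (mem_image_of_mem _ h3)).trans hm.ge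

theorem fr_dense {s : Set Z} (hs : IsClosed s) : Dense (frontier s)ᶜ :=
  interior_eq_empty_iff_dense_compl.1 (interior_frontier hs)

theorem not_fr {s : Set Z} {x : Z} (h1 : x ∈ s) (h2 : x ∉ frontier s) : x ∈ interior s := by
  by_contra h
  exact h2 ⟨subset_closure h1, h⟩

def Gen (H : Set Om → Set Z) (g : Z → ℝ) (η : ℝ) (s : Σ n, Fin n → Bool) : Set Z :=
  (frontier (closure (Hv H g η (cylinder (ex s.2) s.1))))ᶜ

theorem gen_fin (hH : HS H) (hg : CL g L) (hη : 0 < η) {x : Z} (hx : ∀ s, x ∈ Gen H g η s) :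
    {a | (x, a) ∈ Gam H g η}.Finite := by
  refine (finP (x := x) (P := {a | (x, a) ∈ Gam H g η}) hH hg hη
    fun a ha n => not_fr (ha n) ?_).1
  have := hx ⟨n, rs n a⟩
  rwa [Gen, mem_cylinder_iff_eq.1 (ex_rs n a)] at this

def Wr (H : Set Om → Set Z) (g : Z → ℝ) (η : ℝ) (n : ℕ) : Set (Z × Z) :=
  {p | p.1 ∈ Oc H g η ∧ ∀ a, (p.1, a) ∈ Gam H g η → (p.2, a) ∈ Gam H g η →
    ∃ s ∈ St H g η p.1, a ∈ cylinder s n}

theorem wr_open (hH : HS H) (hg : CL g L) (hη : 0 < η) (n : ℕ) : IsOpen (Wr H g η n) := by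
  refine isOpen_iff_mem_nhds.2 fun p hp => ?_
  have hK : IsCompact (⋃ s ∈ St H g η p.1, cylinder s n)ᶜ :=
    (isOpen_biUnion fun s _ => (cyl_clopen s n).isOpen).isClosed_compl.isCompact
  have h1 := hK.eventually_forall_of_forall_eventually (x₀ := p)
    (P := fun (w : Z × Z) (a : Om) => ¬ ((w.1, a) ∈ Gam H g η ∧ (w.2, a) ∈ Gam H g η)) (by
      intro a ha
      have hcl : IsClosed {z : (Z × Z) × Om | (z.1.1, z.2) ∈ Gam H g η ∧ (z.1.2, z.2) ∈ Gam H g η} :=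
        (gam_closed.preimage (by fun_prop)).inter (gam_closed.preimage (by fun_prop))
      refine hcl.isOpen_compl.mem_nhds fun h => ha ?_
      obtain ⟨s, hs, h2⟩ := hp.2 a h.1 h.2
      exact mem_biUnion hs h2)
  have h2 : ∀ᶠ y in 𝓝 p.1, St H g η y = St H g η p.1 := hp.1
  filter_upwards [h1, continuous_fst.continuousAt.eventually h2,
    continuous_fst.continuousAt.eventually_mem (oc_open.mem_nhds hp.1)] with w h3 h4 h5
  refine ⟨h5, fun a h6 h7 => ?_⟩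
  by_contra hc
  refine h3 a (fun h => hc ?_) ⟨h6, h7⟩
  obtain ⟨s, hs, h8⟩ := mem_iUnion₂.1 h
  exact ⟨s, h4 ▸ hs, h8⟩

theorem wr_dense [CompleteSpace Z] (hH : HS H) (hg : CL g L) (hη : 0 < η) (n : ℕ) :
    Dense (Wr H g η n) := by
  refine dense_iff_inter_open.2 fun U hU ⟨p, hp⟩ => ?_
  obtain ⟨V, V', hV, hV', h1, h2, h3⟩ := isOpen_prod_iff.1 hU p.1 p.2 hp
  obtain ⟨x₀, hx₀, hO⟩ := (oc_dense hH hg hη).inter_open_nonempty V hV ⟨_, h1⟩
  obtain ⟨y, hy, hG⟩ := (dense_iInter_of_isOpen (f := Gen H g η)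
    (fun s => isClosed_frontier.isOpen_compl) fun s => fr_dense isClosed_closure).inter_open_nonempty
    V' hV' ⟨_, h2⟩
  have hf := gen_fin hH hg hη (mem_iInter.1 hG)
  have hd : Dense (⋂ a ∈ {a | (y, a) ∈ Gam H g η}, (frontier {z | (z, a) ∈ Gam H g η})ᶜ) :=
    dense_biInter_of_isOpen (fun _ _ => isClosed_frontier.isOpen_compl) hf.countable
      fun a _ => fr_dense (gam_closed.preimage (by fun_prop))
  obtain ⟨x, hx, hx'⟩ := hd.inter_open_nonempty (V ∩ Oc H g η) (hV.inter oc_open) ⟨x₀, hx₀, hO⟩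
  refine ⟨(x, y), h3 ⟨hx.1, hy⟩, hx.2, fun a h4 h5 => ⟨a, ?_, self_mem_cylinder _ _⟩⟩
  exact not_fr (s := {z | (z, a) ∈ Gam H g η}) h4 (mem_iInter₂.1 hx' a h5)

def Ob (H : Set Om → Set Z) (g : Z → ℝ) (η : ℝ) (u : Om → Z) (ε : ℝ) : Set Z :=
  {x | x ∈ Oc H g η ∧ ∀ a ∈ St H g η x, q g x (u a) < ε}

theorem ob_open (hH : HS H) (hg : CL g L) (hη : 0 < η) (u : Om → Z) (ε : ℝ) :
    IsOpen (Ob H g η u ε) := by
  refine isOpen_iff_mem_nhds.2 fun x hx => ?_
  have h1 : ∀ᶠ y in 𝓝 x, ∀ a ∈ St H g η x, q g y (u a) < ε :=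
    (st_fin hH hg hη x).1.eventually_all.2 fun a ha => (hg.q_open _ _).mem_nhds (hx.2 a ha)
  have h2 : ∀ᶠ y in 𝓝 x, St H g η y = St H g η x := hx.1
  filter_upwards [h1, h2, oc_open.mem_nhds hx.1] with y h3 h4 h5
  exact ⟨h5, h4 ▸ h3⟩

theorem ob_dense [CompleteSpace Z] (hH : HS H) (hg : CL g L) (hη : 0 < η) (u : Om → Z) {ε : ℝ}
    (hε : 0 < ε) : Dense (Ob H g η u ε) := by
  refine dense_iff_inter_open.2 fun U hU hne => ?_
  obtain ⟨x₀, hx₀, hO⟩ := (oc_dense hH hg hη).inter_open_nonempty U hU hne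
  have h2 : ∀ᶠ y in 𝓝 x₀, St H g η y = St H g η x₀ := hO
  obtain ⟨V, hV, hVo, hV0⟩ := eventually_nhds_iff.1 h2
  have hd : Dense (⋂ a ∈ St H g η x₀, {z | q g z (u a) < ε}) :=
    dense_biInter_of_isOpen (fun _ _ => hg.q_open _ _) (st_fin hH hg hη x₀).1.countable
      fun a _ => hg.q_dense _ hε
  obtain ⟨x, ⟨⟨h3, h4⟩, h5⟩, hx'⟩ := hd.inter_open_nonempty (U ∩ Oc H g η ∩ V)
    ((hU.inter oc_open).inter hVo) ⟨x₀, ⟨hx₀, hO⟩, hV0⟩
  exact ⟨x, h3, h4, fun a ha => mem_iInter₂.1 hx' a (hV x h5 ▸ ha)⟩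

theorem le_zero_of {a c : ℝ} (h : ∀ k : ℕ, a ≤ c * (1 / ((k : ℝ) + 1))) : a ≤ 0 := by
  have := tendsto_one_div_add_atTop_nhds_zero_nat (𝕜 := ℝ) |>.const_mul c
  rw [mul_zero] at this
  exact ge_of_tendsto' this h

theorem gds [CompleteSpace Z] (hH : HS H) {A : Set Om}
    (hA : ∀ R : Set (Om × Om), MeasurableSet R → (∀ σ, (sec R σ).Countable) →
      (Pairwise fun σ τ => Disjoint (sec R σ) (sec R τ)) → ∃ σ, Disjoint (sec R σ) A)
    {ι : Type} [Countable ι] [Nonempty ι] (c : ι → Z) (u : Om → Z)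
    (hu : ∀ a ∈ A, ∀ n, ∃ j, u a - c j ∈ H (cylinder a n))
    (hd : Dense (Submodule.span ℝ (range c ∪ u '' A) : Set Z))
    (hg : CL g L) {U : Set Z} (hU : IsOpen U) (hne : U.Nonempty) :
    ∃ z ∈ U, ∀ h, q g z h ≤ 0 := by
  let e : ℕ → ℝ := fun m => 1 / ((m : ℝ) + 1)
  have he : ∀ m, 0 < e m := fun m => Nat.one_div_pos_of_nat
  obtain ⟨x, hc, hxU, hW⟩ := mycielski
    (fun p : ℕ × ℕ × (Σ n, Fin n → Bool) × ι => Wr H g (e p.1) p.2.1 ∩
      ((Gen H g (e p.1) p.2.2.1 ∩ Ob H g (e p.1) u (e p.2.1) ∩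
        {z | q g z (c p.2.2.2) < e p.2.1}) ×ˢ univ))
    (fun p => (wr_open hH hg (he _) _).inter
      (((isClosed_frontier.isOpen_compl.inter (ob_open hH hg (he _) _ _)).inter
        (hg.q_open _ _)).prod isOpen_univ))
    (fun p => (wr_dense hH hg (he _) _).inter_of_isOpen_left
      (Dense.prod (((fr_dense isClosed_closure).inter_of_isOpen_left (ob_dense hH hg (he _) _ (he _))
        isClosed_frontier.isOpen_compl).inter_of_isOpen_right (hg.q_dense _ (he _))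
        (hg.q_open _ _)) dense_univ) (wr_open hH hg (he _) _)) hU hne
  have hun : ∀ σ m k s j, x σ ∈ Gen H g (e m) s ∩ Ob H g (e m) u (e k) ∩
      {z | q g z (c j) < e k} := fun σ m k s j => by
    obtain ⟨τ, hτ⟩ := exists_ne σ
    exact (hW σ τ hτ.symm (m, k, s, j)).2.1
  obtain ⟨j₀⟩ := ‹Nonempty ι›
  let s₀ : Σ n, Fin n → Bool := ⟨0, fun _ => true⟩
  let R : Set (Om × Om) := ⋃ m, {p | (x p.1, p.2) ∈ Gam H g (e m)} \ {p | p.2 ∈ St H g (e m) (x p.1)}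
  have hR : ∀ σ a, a ∈ sec R σ ↔ ∃ m, (x σ, a) ∈ Gam H g (e m) ∧ a ∉ St H g (e m) (x σ) := by
    intro σ a; simp [sec, R]
  obtain ⟨σ, hσ⟩ := hA R (by
      refine MeasurableSet.iUnion fun m => MeasurableSet.diff
        (gam_closed.preimage (by fun_prop)).measurableSet (IsClosed.measurableSet ?_)
      refine isOpen_compl_iff.1 (isOpen_iff_mem_nhds.2 fun p hp => ?_)
      have h2 : ∀ᶠ y in 𝓝 (x p.1), St H g (e m) y = St H g (e m) (x p.1) :=
        (hun p.1 m 0 s₀ j₀).1.2.1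
      filter_upwards [(hc.comp continuous_fst).continuousAt.eventually h2,
        continuous_snd.continuousAt.eventually_mem
          ((st_fin hH hg (he m) (x p.1)).1.isClosed.isOpen_compl.mem_nhds hp)] with w h3 h4 h5
      exact h4 (h3 ▸ h5))
    (fun σ => (countable_iUnion fun m =>
        (gen_fin hH hg (he m) fun s => (hun σ m 0 s j₀).1.1).countable).mono fun a ha => by
      obtain ⟨m, h1, -⟩ := (hR σ a).1 ha
      exact mem_iUnion.2 ⟨m, h1⟩)
    (by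
      have key : ∀ σ τ a m m', σ ≠ τ → m ≤ m' → (x σ, a) ∈ Gam H g (e m) →
          (x τ, a) ∈ Gam H g (e m') → a ∈ St H g (e m') (x τ) := by
        intro σ τ a m m' h1 h2 h3 h4
        by_contra h5
        have h6 : ∀ᶠ n in atTop, ∀ s ∈ St H g (e m') (x τ), a ∉ cylinder s n :=
          (st_fin hH hg (he m') (x τ)).1.eventually_all.2 fun s hs =>
            ev_not_cyl fun h => h5 (h ▸ hs)
        obtain ⟨n, hn⟩ := h6.exists
        obtain ⟨s, hs, h7⟩ := (hW τ σ h1.symm (m', n, s₀, j₀)).1.2 a h4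
          (gam_mono (Nat.one_div_le_one_div h2) h3)
        exact hn s hs h7
      intro σ τ h
      refine Set.disjoint_left.2 fun a h1 h2 => ?_
      obtain ⟨m, h3, h4⟩ := (hR σ a).1 h1
      obtain ⟨m', h5, h6⟩ := (hR τ a).1 h2
      rcases le_total m m' with h7 | h7
      · exact h6 (key σ τ a m m' h h7 h3 h5)
      · exact h4 (key τ σ a m' m h.symm h7 h5 h3))
  have hcj : ∀ j, q g (x σ) (c j) ≤ 0 := fun j => le_zero_of (c := 1) fun k => by
    rw [one_mul]; exact le_of_lt (hun σ 0 k s₀ j).2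
  refine ⟨x σ, hxU σ, hg.q_span _ hd ?_⟩
  rintro _ (⟨j, rfl⟩ | ⟨a, ha, rfl⟩)
  · exact hcj j
  by_cases hs : ∃ m, a ∈ St H g (e m) (x σ)
  · obtain ⟨m, hm⟩ := hs
    exact le_zero_of (c := 1) fun k => by
      rw [one_mul]; exact le_of_lt ((hun σ m k s₀ j₀).1.2.2 a hm)
  refine le_zero_of (c := 2) fun m => ?_
  have h1 : (x σ, a) ∉ Gam H g (e m) := fun h =>
    Set.disjoint_left.1 hσ ((hR σ a).2 ⟨m, h, fun h' => hs ⟨m, h'⟩⟩) ha
  obtain ⟨n, hn⟩ := not_forall.1 h1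
  have h2 : ∀ h ∈ H (cylinder a n), d g (x σ) h ≤ e m := fun h hh =>
    not_lt.1 fun h' => hn (subset_closure ⟨h, hh, h'⟩)
  obtain ⟨j, hj⟩ := hu a ha n
  have h3 := hg.q_add (x σ) (c j) (u a - c j)
  rw [add_sub_cancel] at h3
  have h4 := h2 _ hj
  have h5 := h2 _ (hH.neg _ _ hj)
  have h6 := hcj j
  simp only [q, e] at *
  linarith

end Pool.Agent.H.MP_17c4bf_an
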