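import Mathlib
import Pool.Agent.H.MP_17c4bf_an.C

set_option autoImplicit false

namespace Pool.Agent.H.MP_17c4bf_an

open Set Filter Topology PiNat
open scoped ENNReal

theorem wa_of {Z W : Type} [NormedAddCommGroup Z] [NormedSpace ℝ Z] [NormedAddCommGroup W]
    [NormedSpace ℝ W] (P : Z →L[ℝ] W) (hP : Function.Surjective P)
    (hZ : ∀ (g : Z → ℝ) (L : ℝ), CL g L → ∀ U : Set Z, IsOpen U → U.Nonempty →
      ∃ z ∈ U, ∀ h, q g z h ≤ 0)
    (C : ℕ → Set W) (hc : ∀ k, IsClosed (C k)) (hm : Monotone C) (hu : ∀ w, ∃ k, w ∈ C k)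
    (hi : ∀ k, Dense (C k)ᶜ) : WeakAsplund W := by
  intro D hD _ _ f hf hfc
  obtain ⟨G, h1, h2, h3⟩ := meager_trick C hc hm hu hi (S := {w | w ∈ D ∧ GateauxAt f w}) hD (by
    intro w hw
    refine mem_closure_iff.2 fun V hV hwV => ?_
    obtain ⟨r, g, L, hr, hb, hg, he⟩ := extend hD hf hfc hw
    have hG : CL (g ∘ P) (|L| * ‖P‖) := by
      refine ⟨by simpa using hg.cvx.comp_linearMap P.toLinearMap, fun x y => ?_⟩
      have h4 := hg.lip (P x) (P y)
      rw [← map_sub] at h4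
      have h5 := P.le_opNorm (x - y)
      have h6 := mul_le_mul_of_nonneg_right (le_abs_self L) (norm_nonneg (P (x - y)))
      have h7 := mul_le_mul_of_nonneg_left h5 (abs_nonneg L)
      simp only [Function.comp]
      linarith
    obtain ⟨z₀, rfl⟩ := hP w
    obtain ⟨z, hz, hq⟩ := hZ _ _ hG (P ⁻¹' (V ∩ Metric.ball (P z₀) r))
      ((hV.inter Metric.isOpen_ball).preimage P.continuous) ⟨z₀, hwV, Metric.mem_ball_self hr⟩
    refine ⟨P z, hz.1, hb hz.2, GateauxAt.congr (hg.gateaux _ fun v => ?_)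
      (he.eventuallyEq_of_mem (Metric.isOpen_ball.mem_nhds hz.2))⟩
    obtain ⟨h, rfl⟩ := hP v
    have := hq h
    simpa [q, d, sl] using this)
  exact ⟨G, fun w hw => (h1 hw).1, h2, h3, fun w hw => (h1 hw).2⟩

theorem dense_prod_span {X Y : Type} [NormedAddCommGroup X] [NormedSpace ℝ X]
    [NormedAddCommGroup Y] [NormedSpace ℝ Y] {T : Set X} {T' : Set Y} {M : Submodule ℝ (X × Y)}
    (h1 : Dense (Submodule.span ℝ T : Set X)) (h2 : Dense (Submodule.span ℝ T' : Set Y))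
    (h3 : ∀ t ∈ T, (t, 0) ∈ M) (h4 : ∀ t ∈ T', (0, t) ∈ M) : Dense (M : Set (X × Y)) := by
  refine (h1.prod h2).mono ?_
  rintro ⟨x, y⟩ ⟨hx, hy⟩
  have h5 : Submodule.span ℝ T ≤ M.comap (LinearMap.inl ℝ X Y) := Submodule.span_le.2 h3
  have h6 : Submodule.span ℝ T' ≤ M.comap (LinearMap.inr ℝ X Y) := Submodule.span_le.2 h4
  simpa using M.add_mem (h5 hx) (h6 hy)

abbrev Bd := lp (fun _ : Om => ℝ) ∞

noncomputable def ind (S : Set Om) : Bd :=
  ⟨S.indicator 1, memℓp_infty ⟨1, by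
    rintro _ ⟨a, rfl⟩
    by_cases h : a ∈ S <;> simp [h]⟩⟩

theorem ind_mem {S : Set Om} {a : Om} (h : a ∈ S) : ind S a = 1 := indicator_of_mem h _

theorem ind_not {S : Set Om} {a : Om} (h : a ∉ S) : ind S a = 0 := indicator_of_notMem h _

theorem ind_cont {S : Set Om} {a : Om} {n : ℕ} (h : ∀ b ∈ cylinder a n, b ∈ S ↔ a ∈ S) :
    ContinuousAt (ind S : Om → ℝ) a := by
  refine (continuousAt_const (y := ind S a)).congr ?_
  filter_upwards [(cyl_clopen a n).isOpen.mem_nhds (self_mem_cylinder a n)] with b hb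
  by_cases ha : a ∈ S
  · rw [ind_mem ha, ind_mem ((h b hb).2 ha)]
  · rw [ind_not ha, ind_not fun h' => ha ((h b hb).1 h')]

abbrev Lv := Σ n, Set (Fin n → Bool)

noncomputable def cc (j : Lv) : Bd := ind (rs j.1 ⁻¹' j.2)

def Ev (a : Om) : Set Om := {w | ∃ k, w ∈ cylinder a (2 * k) ∧ w (2 * k) ≠ a (2 * k)}

theorem ev_loc {a w b : Om} {n : ℕ} (hw : w ∉ cylinder a n) (hb : b ∈ cylinder w n)
    (h : w ∈ Ev a) : b ∈ Ev a := by
  obtain ⟨k, h1, h2⟩ := h
  have hk : 2 * k < n := by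
    by_contra hc
    exact hw (cylinder_anti a (not_lt.1 hc) h1)
  exact ⟨k, fun i hi => (hb i (hi.trans hk)).trans (h1 i hi), by rwa [hb _ hk]⟩

theorem ev_iff {a w b : Om} {n : ℕ} (hw : w ∉ cylinder a n) (hb : b ∈ cylinder w n) :
    b ∈ Ev a ↔ w ∈ Ev a :=
  ⟨ev_loc (fun h => hw fun i hi => (hb i hi).symm.trans (h i hi))
    ((mem_cylinder_comm _ _ _).1 hb), ev_loc hw hb⟩

def gens (A : Set Om) : Set Bd := range cc ∪ (fun a => ind (Ev a)) '' A

noncomputable def XX (A : Set Om) : Submodule ℝ Bd :=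
  (Submodule.span ℝ (gens A)).topologicalClosure

instance (A : Set Om) : CompleteSpace (XX A) :=
  (Submodule.isClosed_topologicalClosure _).completeSpace_coe

theorem gen_mem {A : Set Om} {x : Bd} (h : x ∈ gens A) : x ∈ XX A :=
  Submodule.le_topologicalClosure _ (Submodule.subset_span h)

noncomputable def c1 (A : Set Om) (j : Lv) : XX A := ⟨cc j, gen_mem (Or.inl ⟨j, rfl⟩)⟩

open Classical in
noncomputable def u1 (A : Set Om) (a : Om) : XX A :=
  if h : a ∈ A then ⟨ind (Ev a), gen_mem (Or.inr ⟨a, h, rfl⟩)⟩ else 0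

theorem u1_val {A : Set Om} {a : Om} (h : a ∈ A) : (u1 A a : Bd) = ind (Ev a) := by
  simp [u1, h]

theorem xx_dense (A : Set Om) :
    Dense (Submodule.span ℝ (range (c1 A) ∪ u1 A '' A) : Set (XX A)) := by
  refine Subtype.dense_iff.2 (closure_mono ?_)
  have : Submodule.span ℝ (gens A) ≤
      (Submodule.span ℝ (range (c1 A) ∪ u1 A '' A)).map (XX A).subtype := by
    refine Submodule.span_le.2 ?_
    rintro _ (⟨j, rfl⟩ | ⟨a, ha, rfl⟩)
    · exact ⟨c1 A j, Submodule.subset_span (Or.inl ⟨j, rfl⟩), rfl⟩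
    · exact ⟨u1 A a, Submodule.subset_span (Or.inr ⟨a, ha, rfl⟩), u1_val ha⟩
  exact this

theorem ap_le (x y : Bd) (w : Om) : |x w - y w| ≤ ‖x - y‖ :=
  lp.norm_apply_le_norm ENNReal.top_ne_zero (x - y) w

theorem xx_cont {A : Set Om} {w : Om} (hw : w ∉ A) (x : XX A) :
    ContinuousAt ((x : Bd) : Om → ℝ) w := by
  have h1 : ∀ y ∈ Submodule.span ℝ (gens A), ContinuousAt (y : Om → ℝ) w := by
    intro y hy
    induction hy using Submodule.span_induction with
    | mem y hy =>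
      rcases hy with ⟨j, rfl⟩ | ⟨a, ha, rfl⟩
      · exact ind_cont (n := j.1) fun b hb => by simp [rs_eq.2 hb]
      · obtain ⟨n, hn⟩ := (ev_not_cyl (show w ≠ a from fun h => hw (h ▸ ha))).exists
        exact ind_cont fun b hb => ev_iff hn hb
    | zero => exact continuousAt_const
    | add y z _ _ hy hz => exact hy.add hz
    | smul c y _ hy => exact hy.const_smul c
  refine Metric.continuousAt_iff'.2 fun ε hε => ?_
  obtain ⟨y, hy, hd⟩ := Metric.mem_closure_iff.1 x.2 (ε / 3) (by positivity)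
  filter_upwards [Metric.continuousAt_iff'.1 (h1 y hy) (ε / 3) (by positivity)] with b hb
  rw [dist_eq_norm] at hd
  rw [Real.dist_eq] at hb ⊢
  have h2 := abs_le.1 (ap_le x y b)
  have h3 := abs_le.1 (ap_le x y w)
  rw [abs_lt] at hb ⊢
  constructor <;> linarith [h2.1, h2.2, h3.1, h3.2, hb.1, hb.2]

abbrev Y1 := lp (fun _ : ℕ => ℝ) 1
abbrev Yi := lp (fun _ : ℕ => ℝ) ∞

theorem wt_le (y : Y1) (n : ℕ) : ‖y n / ((n : ℝ) + 1)‖ ≤ ‖y‖ := by
  rw [norm_div, Real.norm_of_nonneg (by positivity : (0 : ℝ) ≤ n + 1)]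
  exact (div_le_self (norm_nonneg _) (by simp)).trans (lp.norm_apply_le_norm one_ne_zero y n)

noncomputable def TT : Y1 →L[ℝ] Yi :=
  LinearMap.mkContinuous
    { toFun := fun y => ⟨fun n => y n / ((n : ℝ) + 1), memℓp_infty ⟨‖y‖, by
        rintro _ ⟨n, rfl⟩; exact wt_le y n⟩⟩
      map_add' := fun y z => lp.ext (funext fun n => add_div _ _ _)
      map_smul' := fun c y => lp.ext (funext fun n => mul_div_assoc _ _ _) } 1
    fun y => by
      rw [one_mul]
      exact lp.norm_le_of_forall_le (norm_nonneg y) (wt_le y)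

theorem TT_ap (y : Y1) (n : ℕ) : TT y n = y n / ((n : ℝ) + 1) := rfl

noncomputable def FF : Submodule ℝ Yi := LinearMap.range TT.toLinearMap

noncomputable def T1 : Y1 →L[ℝ] FF := TT.codRestrict FF fun y => ⟨y, rfl⟩

theorem y1_dense :
    Dense (Submodule.span ℝ (range fun n : ℕ => (lp.single 1 n (1 : ℝ) : Y1)) : Set Y1) := by
  intro y
  refine mem_closure_of_tendsto (lp.hasSum_single ENNReal.one_ne_top y)
    (Eventually.of_forall fun s => Submodule.sum_mem _ fun n _ => ?_)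
  have : (lp.single 1 n (y n) : Y1) = (y n) • lp.single 1 n (1 : ℝ) := by
    rw [← lp.single_smul]; simp
  rw [this]
  exact Submodule.smul_mem _ _ (Submodule.subset_span ⟨n, rfl⟩)

def HH (A : Set Om) (J : Set Om) : Set (XX A × Y1) :=
  {z | z.2 = 0 ∧ (∀ w, |(z.1 : Bd) w| ≤ 1) ∧ ∀ w, w ∉ J → (z.1 : Bd) w = 0}

theorem hh (A : Set Om) : HS (HH A) where
  neg J h := fun ⟨h1, h2, h3⟩ => ⟨by simp [h1], fun w => by simpa using h2 w,
    fun w hw => by simpa using h3 w hw⟩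
  norm J h := fun ⟨h1, h2, _⟩ => by
    rw [Prod.norm_def, h1, norm_zero]
    exact max_le (lp.norm_le_of_forall_le zero_le_one h2) zero_le_one
  add J J' h k hJ := fun ⟨h1, h2, h3⟩ ⟨k1, k2, k3⟩ => by
    refine ⟨by simp [h1, k1], fun w => ?_, fun w hw => ?_⟩
    · by_cases hw : w ∈ J
      · simpa [k3 w (Set.disjoint_left.1 hJ hw)] using h2 w
      · simpa [h3 w hw] using k2 w
    · simp [h3 w fun h => hw (Or.inl h), k3 w fun h => hw (Or.inr h)]
  zero := ⟨rfl, fun w => by simp, fun w _ => by simp⟩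

theorem wa_prod {A : Set Om}
    (hA : ∀ R : Set (Om × Om), MeasurableSet R → (∀ σ, (sec R σ).Countable) →
      (Pairwise fun σ τ => Disjoint (sec R σ) (sec R τ)) → ∃ σ, Disjoint (sec R σ) A) :
    WeakAsplund (XX A × FF) := by
  refine wa_of ((ContinuousLinearMap.id ℝ (XX A)).prodMap T1) ?_ (fun g L hg U hU hne => ?_)
    (fun k => {p | ∀ n : ℕ, |(p.2 : Yi) n| * (n + 1) ≤ k}) (fun k => ?_) ?_ ?_ ?_
  · rintro ⟨x, _, y, rfl⟩
    exact ⟨(x, y), rfl⟩
  · refine gds (hh A) hA (Sum.elim (fun j => (c1 A j, 0)) fun n : ℕ => (0, lp.single 1 n (1 : ℝ)))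
      (fun a => (u1 A a, 0)) (fun a ha n => ?_) ?_ hg hU hne
    · refine ⟨Sum.inl ⟨n, {s | ex s ∉ cylinder a n ∧ ex s ∈ Ev a}⟩, by simp, ?_⟩
      have key : ∀ w, w ∈ rs n ⁻¹' {s | ex s ∉ cylinder a n ∧ ex s ∈ Ev a} ↔
          w ∉ cylinder a n ∧ w ∈ Ev a := by
        intro w
        have h1 := ex_rs n w
        have h2 : ex (rs n w) ∈ cylinder a n ↔ w ∈ cylinder a n :=
          ⟨fun h i hi => (h1 i hi).symm.trans (h i hi), fun h i hi => (h1 i hi).trans (h i hi)⟩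
        simp only [mem_preimage, Set.mem_ofPred_eq, h2]
        exact and_congr_right fun h => ev_iff h h1
      have e : ∀ w, (((u1 A a - c1 A ⟨n, {s | ex s ∉ cylinder a n ∧ ex s ∈ Ev a}⟩ : XX A) : Bd) w) =
          ind (Ev a) w - ind (rs n ⁻¹' {s | ex s ∉ cylinder a n ∧ ex s ∈ Ev a}) w := by
        intro w
        rw [← u1_val ha]; rfl
      constructor
      · intro w
        refine (congrArg abs (e w)).trans_le ?_
        generalize rs n ⁻¹' {s | ex s ∉ cylinder a n ∧ ex s ∈ Ev a} = S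
        by_cases h1 : w ∈ Ev a <;> by_cases h2 : w ∈ S <;> simp [ind_mem, ind_not, h1, h2]
      · intro w hw
        refine (e w).trans ?_
        by_cases h1 : w ∈ Ev a
        · rw [ind_mem h1, ind_mem ((key w).2 ⟨hw, h1⟩), sub_self]
        · rw [ind_not h1, ind_not fun h => h1 ((key w).1 h).2, sub_self]
    · refine dense_prod_span (xx_dense A) y1_dense ?_ ?_
      · rintro _ (⟨j, rfl⟩ | ⟨a, ha, rfl⟩)
        · exact Submodule.subset_span (Or.inl ⟨Sum.inl j, rfl⟩)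
        · exact Submodule.subset_span (Or.inr ⟨a, ha, rfl⟩)
      · rintro _ ⟨n, rfl⟩
        exact Submodule.subset_span (Or.inl ⟨Sum.inr n, rfl⟩)
  · rw [setOf_forall]
    refine isClosed_iInter fun n => isClosed_le ?_ continuous_const
    have : Continuous fun p : XX A × FF => (p.2 : Yi) n :=
      (lp.evalCLM ℝ (fun _ : ℕ => ℝ) ∞ n).continuous.comp (by fun_prop)
    fun_prop
  · intro k l h p hp n
    exact (hp n).trans (Nat.cast_le.2 h)
  · rintro ⟨x, _, y, rfl⟩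
    obtain ⟨k, hk⟩ := exists_nat_ge ‖y‖
    refine ⟨k, fun n => ?_⟩
    change |y n / ((n : ℝ) + 1)| * (n + 1) ≤ k
    rw [abs_div, abs_of_pos (by positivity : (0 : ℝ) < n + 1), div_mul_cancel₀ _ (by positivity)]
    exact (lp.norm_apply_le_norm one_ne_zero y n).trans hk
  · intro k
    refine Metric.dense_iff.2 fun p r hr => ?_
    by_cases hp : ∀ n : ℕ, |(p.2 : Yi) n| * (n + 1) ≤ k
    swap
    · exact ⟨p, Metric.mem_ball_self hr, hp⟩
    obtain ⟨n, hn⟩ := exists_nat_gt ((2 * k + 1) / r)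
    have hn1 : (0 : ℝ) < n + 1 := by positivity
    refine ⟨p + (0, T1 (lp.single 1 n (2 * k + 1 : ℝ))), ?_, fun h => ?_⟩
    · rw [mem_ball_iff_norm, add_sub_cancel_left, Prod.norm_def, norm_zero]
      refine max_lt hr (lt_of_le_of_lt (lp.norm_le_of_forall_le
        (C := (2 * k + 1) / ((n : ℝ) + 1)) (by positivity) fun i => ?_) ?_)
      · change ‖(lp.single 1 n (2 * k + 1 : ℝ) : Y1) i / ((i : ℝ) + 1)‖ ≤ _
        by_cases hi : i = n
        · subst hi
          rw [lp.single_apply_self, Real.norm_of_nonneg (by positivity)]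
        · rw [lp.single_apply_ne _ _ _ hi, zero_div, norm_zero]; positivity
      · rw [div_lt_iff₀ hr] at hn
        rw [div_lt_iff₀ hn1]
        nlinarith
    · have h1 : |(p.2 : Yi) n + (lp.single 1 n (2 * k + 1 : ℝ) : Y1) n / ((n : ℝ) + 1)| * (n + 1)
        ≤ k := h n
      rw [lp.single_apply_self, ← abs_of_pos hn1, ← abs_mul, abs_of_pos hn1, add_mul,
        div_mul_cancel₀ _ hn1.ne'] at h1
      have h2 := hp n
      rw [← abs_of_pos hn1, ← abs_mul] at h2
      linarith [(abs_le.1 h1).2, (abs_le.1 h2).1]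

end Pool.Agent.H.MP_17c4bf_an
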