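import Mathlib
import Pool.Agent.H.MP_17c4bf_an.D

set_option autoImplicit false

namespace Pool.Agent.H.MP_17c4bf_an

open Set Filter Topology PiNat
open scoped ENNReal

abbrev Nd := Σ n, Fin n → Bool

instance : Nonempty Nd := ⟨⟨0, fun _ => true⟩⟩

noncomputable def Fs (x : Bd) : ℝ := ⨆ s : Nd, x (ex s.2)

theorem le_Fs (x : Bd) (s : Nd) : x (ex s.2) ≤ Fs x :=
  le_ciSup (f := fun s : Nd => x (ex s.2)) ⟨‖x‖, by
    rintro _ ⟨t, rfl⟩
    exact (le_abs_self _).trans (lp.norm_apply_le_norm ENNReal.top_ne_zero x _)⟩ s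

theorem lt_Fs (x : Bd) {ε : ℝ} (hε : 0 < ε) : ∃ s : Nd, Fs x - ε < x (ex s.2) :=
  exists_lt_of_lt_ciSup (sub_lt_self _ hε)

theorem Fs_lip (x y : Bd) : Fs x - Fs y ≤ ‖x - y‖ := by
  rw [sub_le_iff_le_add]
  refine ciSup_le fun s => ?_
  linarith [(abs_le.1 (ap_le x y (ex s.2))).2, le_Fs y s]

theorem Fs_cl (A : Set Om) : CL (fun x : XX A => Fs x) 1 := by
  refine ⟨⟨convex_univ, fun x _ y _ a b ha hb _ => ciSup_le fun s => ?_⟩, fun x y => ?_⟩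
  · exact add_le_add (mul_le_mul_of_nonneg_left (le_Fs x s) ha)
      (mul_le_mul_of_nonneg_left (le_Fs y s) hb)
  · rw [one_mul]; exact Fs_lip x y

def Peak (x : Bd) (t : Om) (l : ℕ) (ε : ℝ) : Prop :=
  ∃ γ, 0 < γ ∧ (∀ s : Nd, ex s.2 ∉ cylinder t l → x (ex s.2) ≤ Fs x - γ) ∧
    ∀ w ∈ cylinder t l, Fs x - ε + γ ≤ x w

theorem peak_open (t : Om) (l : ℕ) (ε : ℝ) : IsOpen {x : Bd | Peak x t l ε} := by
  refine Metric.isOpen_iff.2 fun x ⟨γ, hγ, h1, h2⟩ => ⟨γ / 4, by positivity, fun y hy => ?_⟩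
  rw [mem_ball_iff_norm] at hy
  have h3 := Fs_lip x y
  have h4 := Fs_lip y x
  rw [norm_sub_rev] at h3
  refine ⟨γ / 2, by positivity, fun s hs => ?_, fun w hw => ?_⟩
  · linarith [h1 s hs, (abs_le.1 (ap_le y x (ex s.2))).2]
  · linarith [h2 w hw, (abs_le.1 (ap_le y x w)).1]

theorem peak_near {A : Set Om} (hA : Disjoint A Qs) (y : XX A) {ρ ε : ℝ} (hρ : 0 < ρ)
    (hε : 0 < ε) : ∃ w₀ l₀, ∀ t ∈ cylinder w₀ l₀, ∀ l, l₀ ≤ l →
      ∃ y' : XX A, dist y' y < ρ ∧ Peak y' t l ε := by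
  obtain ⟨δ, hδ, h1, h2⟩ : ∃ δ, 0 < δ ∧ δ < ρ ∧ δ ≤ ε :=
    ⟨min (ρ / 2) ε, by positivity, (min_le_left _ _).trans_lt (half_lt_self hρ), min_le_right _ _⟩
  obtain ⟨s₀, hs₀⟩ := lt_Fs y (by positivity : 0 < δ / 10)
  obtain ⟨l₀, hl₀⟩ := cyl_basis _ (Metric.continuousAt_iff'.1
    (xx_cont (Set.disjoint_right.1 hA ⟨s₀, rfl⟩) y) (δ / 10) (by positivity))
  refine ⟨ex s₀.2, l₀, fun t ht l hl => ?_⟩
  have hc : rs l ⁻¹' {rs l t} = cylinder t l := by ext b; simp [rs_eq]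
  have e : ∀ w, ((y + δ • c1 A ⟨l, {rs l t}⟩ : XX A) : Bd) w =
      (y : Bd) w + δ * ind (cylinder t l) w := fun w => by rw [← hc]; rfl
  have h3 : ∀ w ∈ cylinder t l, Fs y - 2 * (δ / 10) ≤ (y : Bd) w := by
    intro w hw
    have h4 : dist ((y : Bd) w) ((y : Bd) (ex s₀.2)) < δ / 10 :=
      hl₀ fun i hi => (hw i (hi.trans_le hl)).trans (ht i hi)
    rw [Real.dist_eq] at h4
    linarith [(abs_lt.1 h4).1]
  have hn : ‖((y + δ • c1 A ⟨l, {rs l t}⟩ : XX A) : Bd) - y‖ ≤ δ := by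
    refine lp.norm_le_of_forall_le hδ.le fun w => ?_
    change ‖((y + δ • c1 A ⟨l, {rs l t}⟩ : XX A) : Bd) w - (y : Bd) w‖ ≤ δ
    rw [e]
    by_cases hw : w ∈ cylinder t l
    · rw [ind_mem hw]; simp [abs_of_pos hδ]
    · rw [ind_not hw]; simp [hδ.le]
  refine ⟨y + δ • c1 A ⟨l, {rs l t}⟩, ?_, δ - 2 * (δ / 10), by linarith, fun s hs => ?_,
    fun w hw => ?_⟩
  · rw [Subtype.dist_eq, dist_eq_norm]; exact hn.trans_lt h1
  · have h5 := le_Fs ((y + δ • c1 A ⟨l, {rs l t}⟩ : XX A) : Bd) ⟨l, rs l t⟩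
    rw [e, ind_mem (ex_rs l t)] at h5
    rw [e, ind_not hs]
    linarith [h3 _ (ex_rs l t), le_Fs y s]
  · rw [e, ind_mem hw]
    linarith [h3 w hw, Fs_lip ((y + δ • c1 A ⟨l, {rs l t}⟩ : XX A) : Bd) y]

def Wp (A : Set Om) (ε : ℝ) : Set (XX A × XX A) :=
  {p | ∃ t l t' l', Disjoint (cylinder t l) (cylinder t' l') ∧ Peak p.1 t l ε ∧ Peak p.2 t' l' ε}

theorem wp_open (A : Set Om) (ε : ℝ) : IsOpen (Wp A ε) := by
  refine isOpen_iff_mem_nhds.2 fun p ⟨t, l, t', l', h1, h2, h3⟩ => ?_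
  have c1 : Continuous fun p : XX A × XX A => (p.1 : Bd) := by fun_prop
  have c2 : Continuous fun p : XX A × XX A => (p.2 : Bd) := by fun_prop
  filter_upwards [c1.continuousAt.eventually_mem ((peak_open t l ε).mem_nhds h2),
    c2.continuousAt.eventually_mem ((peak_open t' l' ε).mem_nhds h3)] with w h4 h5
  exact ⟨t, l, t', l', h1, h4, h5⟩

theorem wp_dense {A : Set Om} (hA : Disjoint A Qs) {ε : ℝ} (hε : 0 < ε) : Dense (Wp A ε) := by
  refine Metric.dense_iff.2 fun p r hr => ?_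
  obtain ⟨w₀, l₀, h₀⟩ := peak_near hA p.1 hr hε
  obtain ⟨w₁, l₁, h₁⟩ := peak_near hA p.2 hr hε
  obtain ⟨y, hy, hp⟩ := h₀ w₀ (self_mem_cylinder _ _) (max l₀ (l₁ + 1)) (le_max_left _ _)
  obtain ⟨z, hz, hq⟩ := h₁ _ (update_mem_cylinder w₁ l₁ (!w₀ l₁)) (max l₀ (l₁ + 1))
    ((Nat.le_succ _).trans (le_max_right _ _))
  refine ⟨(y, z), ?_, _, _, _, _, cyl_disj fun h => ?_, hp, hq⟩
  · rw [← ball_prod_same]; exact ⟨hy, hz⟩
  · have := h l₁ ((Nat.lt_succ_self _).trans_le (le_max_right _ _))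
    simp at this

def Top (x : Bd) (a : Om) : Prop :=
  ∀ l k : ℕ, ∃ s : Nd, ex s.2 ∈ cylinder a l ∧ Fs x - 1 / ((k : ℝ) + 1) < x (ex s.2)

theorem top_ex (x : Bd) : ∃ a, Top x a := by
  choose s hs using fun k : ℕ => lt_Fs x (Nat.one_div_pos_of_nat (n := k))
  obtain ⟨a, φ, hφ, ha⟩ := CompactSpace.tendsto_subseq fun k => ex (s k).2
  refine ⟨a, fun l k => ?_⟩
  obtain ⟨j, h1, h2⟩ := ((ha.eventually_mem ((cyl_clopen a l).isOpen.mem_nhds
    (self_mem_cylinder a l))).and (eventually_ge_atTop k)).exists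
  refine ⟨s (φ j), h1, lt_of_le_of_lt ?_ (hs (φ j))⟩
  have := Nat.one_div_le_one_div (α := ℝ) (h2.trans (hφ.id_le j))
  linarith

theorem top_peak {x : Bd} {a t : Om} {l : ℕ} {ε : ℝ} (h : Top x a) (hp : Peak x t l ε) :
    a ∈ cylinder t l := by
  obtain ⟨γ, hγ, h1, -⟩ := hp
  obtain ⟨k, hk⟩ := exists_nat_one_div_lt hγ
  obtain ⟨s, h2, h3⟩ := h l k
  by_contra hc
  linarith [h1 s (Set.disjoint_left.1 (cyl_disj hc) h2)]

theorem fl (a : Om) (j : ℕ) : ∃ s : Nd, ex s.2 ∈ cylinder a j ∧ ex s.2 j ≠ a j := by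
  have h := ex_rs (j + 1) (Function.update a j (!a j))
  refine ⟨⟨j + 1, rs (j + 1) (Function.update a j (!a j))⟩, fun i hi => ?_, ?_⟩
  · rw [h i (hi.trans (Nat.lt_succ_self _)), Function.update_of_ne hi.ne]
  · rw [h j (Nat.lt_succ_self _)]; simp

theorem not_wa {A : Set Om} (hA : Disjoint A Qs)
    (hB : ∀ R : Set (Om × Om), MeasurableSet R → (∀ σ, (sec R σ).Nonempty) →
      (Pairwise fun σ τ => Disjoint (sec R σ) (sec R τ)) → ∃ σ, (sec R σ ∩ A).Nonempty) :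
    ¬ WeakAsplund (XX A) := by
  intro h
  obtain ⟨G, -, hG, hd, hg⟩ := h univ isOpen_univ convex_univ univ_nonempty _ (Fs_cl A).cvx
    (Fs_cl A).cont.continuousOn
  obtain ⟨V, hV, rfl⟩ := hG.eq_iInter_nat
  have hVd : ∀ k, Dense (V k) := fun k x => closure_mono (iInter_subset _ k) (hd (mem_univ x))
  have he : ∀ k : ℕ, (0 : ℝ) < 1 / ((k : ℝ) + 1) := fun k => Nat.one_div_pos_of_nat
  obtain ⟨x, hc, -, hW⟩ := mycielski (fun k : ℕ => Wp A (1 / ((k : ℝ) + 1)) ∩ V k ×ˢ univ)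
    (fun k => (wp_open _ _).inter ((hV k).prod isOpen_univ))
    (fun k => (wp_dense hA (he k)).inter_of_isOpen_left ((hVd k).prod dense_univ) (wp_open _ _))
    isOpen_univ univ_nonempty
  obtain ⟨σ, a, ha, haA⟩ := hB {p | Top (x p.1) p.2} (by
      simp only [Top, ofPred_forall, ofPred_exists, ofPred_and]
      refine MeasurableSet.iInter fun l => MeasurableSet.iInter fun k =>
        MeasurableSet.iUnion fun s => IsOpen.measurableSet (IsOpen.inter ?_ ?_)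
      · have : {p : Om × Om | ex s.2 ∈ cylinder p.2 l} = Prod.snd ⁻¹' cylinder (ex s.2) l := by
          ext p; exact mem_cylinder_comm _ _ _
        rw [this]
        exact (cyl_clopen _ _).isOpen.preimage continuous_snd
      · refine isOpen_lt ?_ ?_
        · exact (((Fs_cl A).cont.comp hc).comp continuous_fst).sub continuous_const
        · exact (lp.evalCLM ℝ (fun _ : Om => ℝ) ∞ (ex s.2)).continuous.comp (by fun_prop))
    (fun σ => top_ex (x σ)) (fun σ τ hst => Set.disjoint_left.2 fun a h1 h2 => by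
      obtain ⟨t, l, t', l', h3, h4, h5⟩ := (hW σ τ hst 0).1
      exact Set.disjoint_left.1 h3 (top_peak h1 h4) (top_peak h2 h5))
  obtain ⟨τ, hτ⟩ := exists_ne σ
  obtain ⟨φ, hφ⟩ := hg (x σ) (mem_iInter.2 fun k => (hW σ τ hτ.symm k).2.1)
  have hp : ∀ k : ℕ, ∃ l, ∀ w ∈ cylinder a l, Fs (x σ) - 1 / ((k : ℝ) + 1) ≤ (x σ : Bd) w := by
    intro k
    obtain ⟨t, l, -, -, -, h4, -⟩ := (hW σ τ hτ.symm k).1
    have h5 := top_peak ha h4
    obtain ⟨γ, hγ, -, h6⟩ := h4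
    exact ⟨l, fun w hw => by linarith [h6 w fun i hi => (hw i hi).trans (h5 i hi)]⟩
  have e : ∀ (t : ℝ) w, ((x σ + t • u1 A a : XX A) : Bd) w = (x σ : Bd) w + t * ind (Ev a) w :=
    fun t w => by rw [← u1_val haA]; rfl
  have h1 : ∀ t : ℝ, Fs (x σ) + t ≤ Fs ((x σ + t • u1 A a : XX A) : Bd) := by
    intro t
    rw [← sub_nonpos]
    refine le_zero_of (c := 1) fun k => ?_
    obtain ⟨l, hl⟩ := hp k
    obtain ⟨s, h2, h3⟩ := fl a (2 * l)
    have h4 := le_Fs ((x σ + t • u1 A a : XX A) : Bd) s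
    rw [e, ind_mem (S := Ev a) ⟨l, h2, h3⟩] at h4
    linarith [hl _ (cylinder_anti a (by omega) h2)]
  have h2 : ∀ t : ℝ, Fs (x σ) ≤ Fs ((x σ + t • u1 A a : XX A) : Bd) := by
    intro t
    rw [← sub_nonpos]
    refine le_zero_of (c := 1) fun k => ?_
    obtain ⟨l, hl⟩ := hp k
    obtain ⟨s, h2, h3⟩ := fl a (2 * l + 1)
    have h4 := le_Fs ((x σ + t • u1 A a : XX A) : Bd) s
    have h5 : ex s.2 ∉ Ev a := by
      rintro ⟨j, h6, h7⟩
      rcases lt_or_ge (2 * j) (2 * l + 1) with h8 | h8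
      · exact h7 (h2 _ h8)
      · exact h3 (h6 _ (by omega))
    rw [e, ind_not h5] at h4
    linarith [hl _ (cylinder_anti a (by omega) h2)]
  have h3 : 1 ≤ φ (u1 A a) := by
    refine ge_of_tendsto ((hφ _).mono_left (nhdsGT_le_nhdsNE 0)) ?_
    filter_upwards [self_mem_nhdsWithin] with t (ht : 0 < t)
    rw [le_div_iff₀ ht]; linarith [h1 t]
  have h4 : φ (u1 A a) ≤ 0 := by
    refine le_of_tendsto ((hφ _).mono_left (nhdsLT_le_nhdsNE 0)) ?_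
    filter_upwards [self_mem_nhdsWithin] with t (ht : t < 0)
    exact div_nonpos_of_nonneg_of_nonpos (by linarith [h2 t]) ht.le
  linarith

theorem main : ∃ A : Set Om, WeakAsplund (XX A × FF) ∧ ¬ WeakAsplund (XX A) := by
  obtain ⟨A, h1, h2, h3⟩ := exists_A
  exact ⟨A, wa_prod h2, not_wa h1 h3⟩

end Pool.Agent.H.MP_17c4bf_an
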